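import Pool.Agent.Lib.MP_f3dc04_al.Main

/-!
Finitely generated normal subgroups of parafree groups have finite index, with a Schreier type
bound for the index.
-/

namespace Pool.Agent.Results.MP_f3dc04_al.NormalFinGenIndex

universe u v

/-- The group `G` is residually nilpotent: the terms of its lower central series (starting with
`G` itself at index `0`) intersect trivially. -/
def ResidNilp (G : Type u) [Group G] : Prop :=
  (⨅ n : ℕ, (⊤ : Subgroup G).lowerCentralSeries n) = ⊥

/-- The group `G` is parafree over the set `α`: it is residually nilpotent and has the same lower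
central quotients as the free group on `α`. No finiteness is imposed on `G` or on `α`. -/
def ParafreeOver (G : Type u) [Group G] (α : Type v) : Prop :=
  ResidNilp G ∧ ∀ n : ℕ,
    Nonempty (G ⧸ (⊤ : Subgroup G).lowerCentralSeries n ≃*
      FreeGroup α ⧸ (⊤ : Subgroup (FreeGroup α)).lowerCentralSeries n)

theorem result (P : Type u) [Group P] (α : Type v) (hP : ParafreeOver P α) (N : Subgroup P)
    (hN : N.Normal) (hN1 : N ≠ ⊥) (A : Finset P)
    (hA : Subgroup.closure (A : Set P) = N) :
    Finite α ∧ N.FiniteIndex ∧ (Nat.card α - 1) * N.index ≤ A.card - 1 := by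
  have hres : Pool.Agent.Lib.MP_f3dc04_al.ResNilp P := by
    intro g hg
    have h1 : g ∈ (⨅ n : ℕ, (⊤ : Subgroup P).lowerCentralSeries n) := by
      rw [Subgroup.mem_iInf]
      exact hg
    have h2 := hP.1
    unfold ResidNilp at h2
    rw [h2, Subgroup.mem_bot] at h1
    exact h1
  exact Pool.Agent.Lib.MP_f3dc04_al.final hres hP.2 N hN1 A hA

end Pool.Agent.Results.MP_f3dc04_al.NormalFinGenIndex
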